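import Mathlib

/-!
MP_fb0157_co, Q1 (k-equilateral n-gons spanning E^(2k-1)), for k = K+2 >= 3 and all n >= 2k+2.
Notation: e = ZMod.stdAddChar, e(h) = exp(2 pi i h/n).

COMB (15 min). n odd, n >= 2K+7, m <> 0: the set {h | InS h or InS (-m-h)} has at least 2K+5 elements.
Proof. S = {-K..K} + {K+2, -K-2} has 2K+3 elements (integers in [-K-2,K+2], n >= 2K+7), and S = -S, so
`InS (-m-h)` iff `InS (h+m)`. It is enough to find two h, not in S, with h+m in S. Replacing (m,h) by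
(-m,-h) we may take m = an integer with 1 <= m <= (n-1)/2.
 m=1: h = -K-1 (h+1 = -K) and h = K+1 (h+1 = K+2).
 m=2: h = -K-4 = n-K-4 (h+2 = -K-2; not in S since K+3 <= n-K-4) and h = -K-1 (h+2 = -K+1).
 3<=m<=2K+1: h = -K-3 (h+m in [-K, K-2]) and h = -K-1 (h+m in [-K+2, K]).
 2K+2 <= m <= (n-1)/2: h = -m and h = -m-1 (h+m = 0, -1; m, m+1 in [K+3, n-K-3]).

FOUR (15 min). Let k = K+2, a_j(m) = sum_v lam v j * e(-(m v)). Multiply the hypothesis by e(-(m v)), sum over v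
(shift v in the second sum): sum_j a_j(m) [(1 - e(f(j+1))) + e(-m(j+1)) (1 - e(-f(j+1)))] = 0 for f = fr l, and
by conjugation (lam real; use m -> -m) also for f = -fr l; and it is trivial for f = 0. The bracket is
1 + e(-m(j+1)) - z^(j+1) - e(-m(j+1)) z^(-(j+1)), z = e(f), and it is invariant under f -> -m-f.
So the polynomial z^k * (...) of degree <= 2k has the zeros e(h), InS h or InS (-m-h): at least 2K+5 = 2k+1 of
them by COMB if m <> 0 (e is injective), hence it is 0, and its coefficient of z^(k+j+1) is -a_j(m). So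
a_j(m) = 0 for m <> 0, and a_j(0) = 0 by hypothesis; invert the Fourier transform.
-/

namespace Pool.Agent.X51.KE

/-- The frequencies `1, ..., K, K+2`. -/
def fr (n K : ℕ) (l : Fin (K + 1)) : ZMod n :=
  if l.val < K then ((l.val + 1 : ℕ) : ZMod n) else ((K + 2 : ℕ) : ZMod n)

/-- `h ∈ {0, ±1, ..., ±K, ±(K+2)}`. -/
def InS (n K : ℕ) (h : ZMod n) : Prop := h = 0 ∨ ∃ l, h = fr n K l ∨ h = - fr n K l

def S_COMB : Prop := ∀ n K : ℕ, 1 ≤ K → Odd n → 2 * K + 7 ≤ n → ∀ m : ZMod n, m ≠ 0 →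
  ∃ T : Finset (ZMod n), 2 * K + 5 ≤ T.card ∧ ∀ h ∈ T, InS n K h ∨ InS n K (-m - h)

def S_FOUR : Prop := ∀ (n K : ℕ) [NeZero n],
  (∀ m : ZMod n, m ≠ 0 →
    ∃ T : Finset (ZMod n), 2 * K + 5 ≤ T.card ∧ ∀ h ∈ T, InS n K h ∨ InS n K (-m - h)) →
  ∀ lam : ZMod n → Fin (K + 2) → ℝ, (∀ j, ∑ v, lam v j = 0) →
  (∀ (l : Fin (K + 1)) (v : ZMod n), ∑ j : Fin (K + 2),
    ((lam v j : ℂ) * (1 - ZMod.stdAddChar (fr n K l * ((j.val + 1 : ℕ) : ZMod n)))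
      + (lam (v - ((j.val + 1 : ℕ) : ZMod n)) j : ℂ) *
        (1 - ZMod.stdAddChar (-(fr n K l * ((j.val + 1 : ℕ) : ZMod n))))) = 0) → lam = 0

/-- SPAN (20 min): if X is close to the symmetric polygon and eps <> 0, the points (X_i, eps u_i), with
u_i = Re e((K+1) i), are not in a hyperplane. Proof: multiply by e(-(fr l * i)) and sum over i; characters
are orthogonal (0, ±fr l', ±(K+1) are different), so |w_l| n/2 <= delta * n * sum |w_l'|; summing over l gives w = 0 if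
delta is small (delta = 1/(4(K+1))), then t eps u_i = b, and u is not constant, so t = 0. -/
def S_SPAN : Prop := ∀ (n K : ℕ) [NeZero n], 1 ≤ K → Odd n → 2 * K + 7 ≤ n → ∃ δ : ℝ, 0 < δ ∧
  ∀ X : ZMod n → Fin (K + 1) → ℂ, (∀ i l, ‖X i l - ZMod.stdAddChar (fr n K l * i)‖ < δ) →
  ∀ ε : ℝ, ε ≠ 0 → ∀ (w : Fin (K + 1) → ℂ) (t b : ℝ),
    (∀ i, (∑ l, (starRingEnd ℂ (w l) * X i l)).re +
      t * (ε * (ZMod.stdAddChar (((K + 1 : ℕ) : ZMod n) * i) : ℂ).re) = b) → w = 0 ∧ t = 0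

/-- EVEN (20 min): n even, n >= 2K+6, k = K+2: the points (e(i), e(2i), ..., e((K+1) i), (-1)^i) are not in a
hyperplane. Proof: characters 0, ±1, ..., ±(K+1), n/2 of ZMod n are different, hence orthogonal. -/
def S_EVEN : Prop := ∀ (n K : ℕ) [NeZero n], 1 ≤ K → Even n → 2 * K + 6 ≤ n →
  ∀ (w : Fin (K + 1) → ℂ) (t b : ℝ),
    (∀ i : ZMod n, (∑ l : Fin (K + 1), (starRingEnd ℂ (w l) *
      ZMod.stdAddChar (((l.val + 1 : ℕ) : ZMod n) * i))).re +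
      t * (ZMod.stdAddChar (((n / 2 : ℕ) : ZMod n) * i) : ℂ).re = b) → w = 0 ∧ t = 0

/-- ASM (20 min): from points X_i in C^(K+1) and real numbers y_i, not in a hyperplane, get points of
EuclideanSpace ℝ (Fin (2K+3)) (e.g. coordinates via a finite-dimensional isometry
WithLp 2 (EuclideanSpace ℂ (Fin (K+1)) × ℝ) ≃ₗᵢ[ℝ], or directly) which span. -/
def S_ASM : Prop := ∀ (n K : ℕ) [NeZero n] (X : ZMod n → Fin (K + 1) → ℂ) (y : ZMod n → ℝ),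
  (∀ (w : Fin (K + 1) → ℂ) (t b : ℝ),
    (∀ i, (∑ l, (starRingEnd ℂ (w l) * X i l)).re + t * y i = b) → w = 0 ∧ t = 0) →
  ∃ P : ZMod n → EuclideanSpace ℝ (Fin (2 * K + 3)),
    affineSpan ℝ (Set.range P) = ⊤ ∧
    ∀ i i', dist (P i) (P i') ^ 2 = ∑ l, ‖X i l - X i' l‖ ^ 2 + (y i - y i') ^ 2

/-- PERT (helper51). -/
def S_PERT : Prop := ∀ (n K : ℕ) [NeZero n],
  (∀ lam : ZMod n → Fin (K + 2) → ℝ, (∀ j, ∑ v, lam v j = 0) →
  (∀ (l : Fin (K + 1)) (v : ZMod n), ∑ j : Fin (K + 2),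
    ((lam v j : ℂ) * (1 - ZMod.stdAddChar (fr n K l * ((j.val + 1 : ℕ) : ZMod n)))
      + (lam (v - ((j.val + 1 : ℕ) : ZMod n)) j : ℂ) *
        (1 - ZMod.stdAddChar (-(fr n K l * ((j.val + 1 : ℕ) : ZMod n))))) = 0) → lam = 0) →
  ∀ (u : ZMod n → ℝ) (δ : ℝ), 0 < δ → ∃ ε : ℝ, ε ≠ 0 ∧ ∃ X : ZMod n → Fin (K + 1) → ℂ,
    (∀ i l, ‖X i l - ZMod.stdAddChar (fr n K l * i)‖ < δ) ∧ ∃ c : Fin (K + 2) → ℝ,
    ∀ i (j : Fin (K + 2)), ∑ l, ‖X i l - X (i + ((j.val + 1 : ℕ) : ZMod n)) l‖ ^ 2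
      + (ε * u i - ε * u (i + ((j.val + 1 : ℕ) : ZMod n))) ^ 2 = c j

end Pool.Agent.X51.KE
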