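import Pool.Agent.X51.KE.Stm

open Filter Topology

namespace Pool.Agent.X51.KE

section
variable (n K : ℕ) [NeZero n]

abbrev jj (j : Fin (K + 2)) : ZMod n := ((j.val + 1 : ℕ) : ZMod n)

abbrev DE := (ZMod n → Fin (K + 1) → ℂ) × (Fin (K + 2) → ℝ)
abbrev DF := ZMod n → Fin (K + 2) → ℝ

/-- the map -/
noncomputable def Phi (p : DE n K) : DF n K := fun i j => ∑ l, ‖p.1 i l - p.1 (i + jj n K j) l‖ ^ 2 - p.2 j

/-- its derivative at `x` -/
noncomputable def LL (x : ZMod n → Fin (K + 1) → ℂ) (p : DE n K) : DF n K := fun i j =>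
  ∑ l, 2 * (starRingEnd ℂ (x i l - x (i + jj n K j) l) * (p.1 i l - p.1 (i + jj n K j) l)).re - p.2 j

theorem contDiff_Phi : ContDiff ℝ 1 (Phi n K) := by
  unfold Phi
  rw [contDiff_pi]
  intro i
  rw [contDiff_pi]
  intro j
  apply ContDiff.sub
  · apply ContDiff.sum
    intro l _
    apply ContDiff.norm_sq ℝ
    fun_prop
  · fun_prop

theorem normSq_add_mul (a b : ℂ) (t : ℝ) :
    ‖a + t * b‖ ^ 2 = ‖a‖ ^ 2 + t * (2 * (starRingEnd ℂ a * b).re) + t ^ 2 * ‖b‖ ^ 2 := by
  rw [← Complex.normSq_eq_norm_sq, ← Complex.normSq_eq_norm_sq, ← Complex.normSq_eq_norm_sq]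
  simp only [Complex.normSq_apply, Complex.add_re, Complex.add_im, Complex.mul_re, Complex.mul_im,
    Complex.ofReal_re, Complex.ofReal_im, Complex.conj_re, Complex.conj_im]
  ring

theorem Phi_line (p q : DE n K) (t : ℝ) :
    Phi n K (p + t • q) = Phi n K p + t • LL n K p.1 q +
      t ^ 2 • (fun i j => ∑ l, ‖q.1 i l - q.1 (i + jj n K j) l‖ ^ 2) := by
  ext i j
  simp only [Phi, LL, Prod.fst_add, Prod.snd_add, Prod.smul_fst, Prod.smul_snd, Pi.add_apply,
    Pi.smul_apply, smul_eq_mul]
  have h : ∀ l, ‖p.1 i l + t • q.1 i l - (p.1 (i + jj n K j) l + t • q.1 (i + jj n K j) l)‖ ^ 2 =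
      ‖p.1 i l - p.1 (i + jj n K j) l‖ ^ 2 +
        t * (2 * (starRingEnd ℂ (p.1 i l - p.1 (i + jj n K j) l) *
          (q.1 i l - q.1 (i + jj n K j) l)).re) +
        t ^ 2 * ‖q.1 i l - q.1 (i + jj n K j) l‖ ^ 2 := by
    intro l
    rw [← normSq_add_mul]
    congr 2
    simp only [Complex.real_smul]
    ring
  rw [Finset.sum_congr rfl fun l _ => h l, Finset.sum_add_distrib, Finset.sum_add_distrib]
  rw [← Finset.mul_sum (s := Finset.univ) (a := t), ← Finset.mul_sum (s := Finset.univ) (a := t ^ 2)]
  generalize (∑ l, ‖p.1 i l - p.1 (i + jj n K j) l‖ ^ 2) = A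
  generalize (∑ l, 2 * (starRingEnd ℂ (p.1 i l - p.1 (i + jj n K j) l) *
          (q.1 i l - q.1 (i + jj n K j) l)).re) = B
  generalize (∑ l, ‖q.1 i l - q.1 (i + jj n K j) l‖ ^ 2) = C
  ring

theorem fderiv_eq (p q : DE n K) : fderiv ℝ (Phi n K) p q = LL n K p.1 q := by
  have h1 : HasFDerivAt (Phi n K) (fderiv ℝ (Phi n K) p) p :=
    ((contDiff_Phi n K).differentiable (by norm_num) p).hasFDerivAt
  have hl : HasDerivAt (fun t : ℝ => p + t • q) q 0 := by
    have := ((hasDerivAt_id (0:ℝ)).smul_const q).const_add p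
    simpa using this
  have h2 : HasDerivAt (fun t : ℝ => Phi n K (p + t • q)) (fderiv ℝ (Phi n K) p q) 0 := by
    have h1' : HasFDerivAt (Phi n K) (fderiv ℝ (Phi n K) p) (p + (0:ℝ) • q) := by simpa using h1
    exact h1'.comp_hasDerivAt (0:ℝ) hl
  have h3 : HasDerivAt (fun t : ℝ => Phi n K (p + t • q)) (LL n K p.1 q) 0 := by
    simp only [Phi_line]
    have a1 : HasDerivAt (fun t : ℝ => t • LL n K p.1 q) (LL n K p.1 q) 0 := by
      simpa using (hasDerivAt_id (0:ℝ)).smul_const (LL n K p.1 q)
    have a2 : HasDerivAt (fun t : ℝ => t ^ 2 •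
        ((fun i j => ∑ l, ‖q.1 i l - q.1 (i + jj n K j) l‖ ^ 2) : DF n K)) 0 0 := by
      have := (hasDerivAt_pow 2 (0:ℝ)).smul_const
        ((fun i j => ∑ l, ‖q.1 i l - q.1 (i + jj n K j) l‖ ^ 2) : DF n K)
      simpa using this
    have h5 := (a1.const_add (Phi n K p)).add a2
    rw [add_zero] at h5
    exact h5
  exact h2.unique h3

/-- the symmetric polygon -/
noncomputable def x0 (i : ZMod n) (l : Fin (K + 1)) : ℂ := ZMod.stdAddChar (fr n K l * i)

theorem x0_add (i j : ZMod n) (l : Fin (K + 1)) :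
    x0 n K (i + j) l = x0 n K i l * ZMod.stdAddChar (fr n K l * j) := by
  unfold x0
  rw [mul_add, AddChar.map_add_eq_mul]

theorem norm_x0 (i : ZMod n) (l : Fin (K + 1)) : ‖x0 n K i l‖ = 1 := by
  unfold x0
  exact AddChar.norm_apply _ _

theorem diff1 (i j : ZMod n) (l : Fin (K + 1)) :
    x0 n K i l - x0 n K (i + j) l = x0 n K i l * (1 - ZMod.stdAddChar (fr n K l * j)) := by
  rw [x0_add]; ring

/-- the constants of the symmetric polygon -/
noncomputable def c0 (j : Fin (K + 2)) : ℝ := ∑ l : Fin (K + 1), ‖(1 - ZMod.stdAddChar (fr n K l * jj n K j) : ℂ)‖ ^ 2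

theorem Phi_base : Phi n K (x0 n K, c0 n K) = 0 := by
  ext i j
  simp only [Phi, c0, diff1, norm_mul, norm_x0, one_mul, sub_self, Pi.zero_apply]

theorem surj_LL (hF : ∀ lam : ZMod n → Fin (K + 2) → ℝ, (∀ j, ∑ v, lam v j = 0) →
      (∀ (l : Fin (K + 1)) (v : ZMod n), ∑ j : Fin (K + 2),
        ((lam v j : ℂ) * (1 - ZMod.stdAddChar (fr n K l * ((j.val + 1 : ℕ) : ZMod n)))
          + (lam (v - ((j.val + 1 : ℕ) : ZMod n)) j : ℂ) *
            (1 - ZMod.stdAddChar (-(fr n K l * ((j.val + 1 : ℕ) : ZMod n))))) = 0) → lam = 0) :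
    (fderiv ℝ (Phi n K) (x0 n K, c0 n K)).range = ⊤ := by
  classical
  set D := fderiv ℝ (Phi n K) (x0 n K, c0 n K) with hD
  by_contra hne
  obtain ⟨φ, hφ0, hφ⟩ := Submodule.exists_le_ker_of_lt_top D.range (lt_top_iff_ne_top.2 hne)
  have hz : ∀ q, φ (LL n K (x0 n K) q) = 0 := by
    intro q
    have h1 : D q = LL n K (x0 n K) q := fderiv_eq n K (x0 n K, c0 n K) q
    rw [← h1]
    exact hφ ⟨q, rfl⟩
  set lam : ZMod n → Fin (K + 2) → ℝ := fun v j => φ (Pi.single v (Pi.single j 1)) with hlam
  have hexp : ∀ w : DF n K, φ w = ∑ v, ∑ j, lam v j * w v j := by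
    intro w
    have hw : w = ∑ v, ∑ j, (w v j) • (Pi.single v (Pi.single j (1:ℝ)) : DF n K) := by
      ext v j
      rw [Finset.sum_apply, Finset.sum_apply]
      rw [Finset.sum_eq_single v]
      · rw [Finset.sum_apply, Finset.sum_apply, Finset.sum_eq_single j]
        · simp
        · intro b _ hb
          simp [Pi.single_apply, hb.symm]
        · intro h; exact absurd (Finset.mem_univ _) h
      · intro b _ hb
        rw [Finset.sum_apply, Finset.sum_apply]
        apply Finset.sum_eq_zero
        intro c _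
        simp [Pi.single_apply, hb.symm]
      · intro h; exact absurd (Finset.mem_univ _) h
    conv_lhs => rw [hw]
    simp only [map_sum, map_smul, smul_eq_mul, hlam]
    exact Finset.sum_congr rfl fun v _ => Finset.sum_congr rfl fun j _ => mul_comm _ _
  have h1 : ∀ j, ∑ v, lam v j = 0 := by
    intro j
    have h2 := hz (0, Pi.single j 1)
    rw [hexp] at h2
    have h3 : ∀ v, ∑ j', lam v j' * LL n K (x0 n K) (0, Pi.single j 1) v j' = - lam v j := by
      intro v
      rw [Finset.sum_eq_single j]
      · simp [LL]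
      · intro b _ hb
        simp [LL, Pi.single_apply, hb]
      · intro h; exact absurd (Finset.mem_univ _) h
    rw [Finset.sum_congr rfl fun v _ => h3 v, Finset.sum_neg_distrib, neg_eq_zero] at h2
    exact h2
  have h2 : ∀ (l : Fin (K + 1)) (v : ZMod n), ∑ j : Fin (K + 2),
        ((lam v j : ℂ) * (1 - ZMod.stdAddChar (fr n K l * ((j.val + 1 : ℕ) : ZMod n)))
          + (lam (v - ((j.val + 1 : ℕ) : ZMod n)) j : ℂ) *
            (1 - ZMod.stdAddChar (-(fr n K l * ((j.val + 1 : ℕ) : ZMod n))))) = 0 := by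
    intro l v
    -- the bracket
    set S : ℂ := ∑ j : Fin (K + 2), ((lam v j : ℂ) * (x0 n K v l - x0 n K (v + jj n K j) l)
      - (lam (v - jj n K j) j : ℂ) * (x0 n K (v - jj n K j) l - x0 n K v l)) with hS
    have hfac : S = x0 n K v l * ∑ j : Fin (K + 2),
        ((lam v j : ℂ) * (1 - ZMod.stdAddChar (fr n K l * ((j.val + 1 : ℕ) : ZMod n)))
          + (lam (v - ((j.val + 1 : ℕ) : ZMod n)) j : ℂ) *
            (1 - ZMod.stdAddChar (-(fr n K l * ((j.val + 1 : ℕ) : ZMod n))))) := by
      rw [hS, Finset.mul_sum]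
      apply Finset.sum_congr rfl
      intro j _
      have e1 : x0 n K (v - jj n K j) l = x0 n K v l *
          ZMod.stdAddChar (-(fr n K l * ((j.val + 1 : ℕ) : ZMod n))) := by
        rw [sub_eq_add_neg, x0_add, mul_neg]
      rw [diff1, e1]
      ring
    have hx : x0 n K v l ≠ 0 := by
      intro h
      have := norm_x0 n K v l
      rw [h, norm_zero] at this
      exact zero_ne_one this
    have hSz : S = 0 := by
      have key : ∀ y : ℂ, (starRingEnd ℂ S * y).re = 0 := by
        intro y
        have h3 := hz (Pi.single v (Pi.single l y), 0)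
        rw [hexp] at h3
        have h4 : ∀ i j, LL n K (x0 n K) (Pi.single v (Pi.single l y), 0) i j =
            2 * (starRingEnd ℂ (x0 n K i l - x0 n K (i + jj n K j) l) *
              ((if i = v then y else 0) - (if i + jj n K j = v then y else 0))).re := by
          intro i j
          simp only [LL, Pi.zero_apply, sub_zero]
          rw [Finset.sum_eq_single l]
          · congr 4
            · by_cases h : i = v
              · subst h; simp
              · simp [Pi.single_apply, h]
            · by_cases h : i + jj n K j = v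
              · rw [h]; simp
              · simp only [Pi.single_apply, h, if_false, Pi.zero_apply]
          · intro b _ hb
            have a1 : ∀ i', (Pi.single v (Pi.single l y) : ZMod n → Fin (K + 1) → ℂ) i' b = 0 := by
              intro i'
              by_cases h : i' = v
              · subst h; simp [Pi.single_apply, hb]
              · simp [Pi.single_apply, h]
            rw [a1, a1]; simp
          · intro h; exact absurd (Finset.mem_univ _) h
        simp only [h4] at h3
        rw [Finset.sum_comm] at h3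
        have h5 : ∀ j : Fin (K + 2), ∑ i, lam i j * (2 * (starRingEnd ℂ (x0 n K i l - x0 n K (i + jj n K j) l) *
              ((if i = v then y else 0) - (if i + jj n K j = v then y else 0))).re) =
            2 * (starRingEnd ℂ ((lam v j : ℂ) * (x0 n K v l - x0 n K (v + jj n K j) l)
              - (lam (v - jj n K j) j : ℂ) * (x0 n K (v - jj n K j) l - x0 n K v l)) * y).re := by
          intro j
          have h6 : ∀ i, lam i j * (2 * (starRingEnd ℂ (x0 n K i l - x0 n K (i + jj n K j) l) *
              ((if i = v then y else 0) - (if i + jj n K j = v then y else 0))).re) =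
              (if i = v then lam i j * (2 * (starRingEnd ℂ (x0 n K i l - x0 n K (i + jj n K j) l) * y).re) else 0)
              - (if i = v - jj n K j then lam i j * (2 * (starRingEnd ℂ (x0 n K i l - x0 n K (i + jj n K j) l) * y).re) else 0) := by
            intro i
            have hiff : (i + jj n K j = v) ↔ (i = v - jj n K j) := eq_sub_iff_add_eq.symm
            by_cases g1 : i = v <;> by_cases g2 : i = v - jj n K j
            · rw [if_pos g1, if_pos g1, if_pos (hiff.2 g2), if_pos g2]; simp
            · rw [if_pos g1, if_pos g1, if_neg (fun h => g2 (hiff.1 h)), if_neg g2]; simp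
            · rw [if_neg g1, if_neg g1, if_pos (hiff.2 g2), if_pos g2]
              simp only [zero_sub, mul_neg, Complex.neg_re]
            · rw [if_neg g1, if_neg g1, if_neg (fun h => g2 (hiff.1 h)), if_neg g2]; simp
          rw [Finset.sum_congr rfl fun i _ => h6 i, Finset.sum_sub_distrib, Finset.sum_ite_eq',
            Finset.sum_ite_eq', if_pos (Finset.mem_univ _), if_pos (Finset.mem_univ _), sub_add_cancel]
          simp only [map_sub, map_mul, Complex.conj_ofReal, Complex.sub_re, Complex.mul_re,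
            Complex.sub_im, Complex.mul_im, Complex.ofReal_re, Complex.ofReal_im, Complex.conj_re,
            Complex.conj_im]
          ring
        rw [Finset.sum_congr rfl fun j _ => h5 j, ← Finset.mul_sum, ← Complex.re_sum,
          ← Finset.sum_mul, ← map_sum] at h3
        have h7 : (starRingEnd ℂ S * y).re = 0 := by
          rw [hS]
          linarith
        exact h7
      have := key S
      rw [mul_comm, Complex.mul_conj, Complex.ofReal_re] at this
      exact Complex.normSq_eq_zero.1 this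
    rw [hSz] at hfac
    exact (mul_eq_zero.1 hfac.symm).resolve_left hx
  have h3 := hF lam h1 h2
  apply hφ0
  apply LinearMap.ext
  intro w
  rw [hexp, h3]
  simp

end

theorem t_PERT : S_PERT := by
  intro n K _ hF u δ hδ
  have hs : HasStrictFDerivAt (Phi n K) (fderiv ℝ (Phi n K) (x0 n K, c0 n K)) (x0 n K, c0 n K) :=
    (contDiff_Phi n K).contDiffAt.hasStrictFDerivAt (by norm_num)
  have hmap := hs.map_nhds_eq_of_surj (surj_LL n K hF)
  rw [Phi_base] at hmap
  set W : Set (DE n K) := {p | ∀ i l, ‖p.1 i l - x0 n K i l‖ < δ} with hW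
  have hWn : W ∈ 𝓝 ((x0 n K, c0 n K) : DE n K) := by
    apply IsOpen.mem_nhds
    · rw [hW]
      simp only [Set.setOf_forall]
      apply isOpen_iInter_of_finite
      intro i
      apply isOpen_iInter_of_finite
      intro l
      apply isOpen_lt
      · fun_prop
      · fun_prop
    · intro i l
      simpa using hδ
  have himg : Phi n K '' W ∈ 𝓝 (0 : DF n K) := by
    rw [← hmap]
    exact image_mem_map hWn
  set g : ℝ → DF n K := fun ε i j => -(ε * u i - ε * u (i + jj n K j)) ^ 2 with hg
  have hgc : Continuous g := by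
    rw [hg]
    fun_prop
  have hg0 : g 0 = 0 := by
    ext i j
    simp [hg]
  have hev : ∀ᶠ ε in 𝓝 (0:ℝ), g ε ∈ Phi n K '' W := by
    have := hgc.continuousAt (x := (0:ℝ))
    rw [ContinuousAt, hg0] at this
    exact this himg
  have hev2 : ∀ᶠ ε in 𝓝[≠] (0:ℝ), g ε ∈ Phi n K '' W := hev.filter_mono nhdsWithin_le_nhds
  obtain ⟨ε, hε, hne⟩ := (hev2.and self_mem_nhdsWithin).exists
  obtain ⟨p, hp, hpe⟩ := hε
  refine ⟨ε, hne, p.1, hp, p.2, ?_⟩
  intro i j
  have := congrFun (congrFun hpe i) j
  simp only [Phi, hg] at this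
  linarith

end Pool.Agent.X51.KE
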