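import Pool.Agent.X51.KE.PertG

namespace Pool.Agent.X51.KE.G

/-- The frequencies `1, 3, 8` in `ZMod 21`. -/
def F3 : Fin 3 → ZMod 21 := ![1, 3, 8]

def S3 : Finset (ZMod 21) := {0, 1, 20, 3, 18, 8, 13}

theorem inS3 (h : ZMod 21) (hh : h ∈ S3) : InSG F3 h := by
  simp only [S3, Finset.mem_insert, Finset.mem_singleton] at hh
  rcases hh with h | h | h | h | h | h | h
  · exact Or.inl h
  · exact Or.inr ⟨0, Or.inl h⟩
  · exact Or.inr ⟨0, Or.inr (by rw [h]; decide)⟩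
  · exact Or.inr ⟨1, Or.inl h⟩
  · exact Or.inr ⟨1, Or.inr (by rw [h]; decide)⟩
  · exact Or.inr ⟨2, Or.inl h⟩
  · exact Or.inr ⟨2, Or.inr (by rw [h]; decide)⟩

theorem card3 : ∀ m : ZMod 21, m ≠ 0 →
    11 ≤ (Finset.univ.filter fun h : ZMod 21 => h ∈ S3 ∨ -m - h ∈ S3).card := by
  decide +kernel

theorem comb3 : ∀ m : ZMod 21, m ≠ 0 →
    ∃ T : Finset (ZMod 21), 2 * 5 + 1 ≤ T.card ∧ ∀ h ∈ T, InSG F3 h ∨ InSG F3 (-m - h) := by
  intro m hm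
  refine ⟨Finset.univ.filter fun h : ZMod 21 => h ∈ S3 ∨ -m - h ∈ S3, card3 m hm, ?_⟩
  intro h hh
  rcases (Finset.mem_filter.1 hh).2 with h1 | h1
  · exact Or.inl (inS3 _ h1)
  · exact Or.inr (inS3 _ h1)

theorem inj3 : Function.Injective F3 := by decide
theorem ne0 : ∀ l, F3 l ≠ 0 := by decide
theorem neneg : ∀ l l', F3 l ≠ - F3 l' := by decide
theorem neg2 : ∀ l, F3 l ≠ (2 : ZMod 21) := by decide
theorem neg2' : ∀ l, F3 l ≠ -(2 : ZMod 21) := by decide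
theorem two0 : (2 : ZMod 21) ≠ 0 := by decide

end Pool.Agent.X51.KE.G
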