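import Pool.Agent.X51.KE.Stm

/-!
General versions (any frequencies `F : Fin L → ZMod n`, any number `kd` of distances), same proofs as FOUR and
SPAN in Stm.lean. With them Q2 is DISPROVED: k = 4, kd = k+1 = 5 distances, L = k-1 = 3 frequencies.

FOURG: exactly the proof of FOUR with k replaced by kd: polynomial of degree <= 2 kd, at least 2 kd + 1 zeros
e(h) (h in T), so it vanishes.
SPANG: exactly the proof of SPAN.
-/

namespace Pool.Agent.X51.KE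

def InSG {n L : ℕ} (F : Fin L → ZMod n) (h : ZMod n) : Prop := h = 0 ∨ ∃ l, h = F l ∨ h = - F l

def S_FOURG : Prop := ∀ (n L kd : ℕ) [NeZero n] (F : Fin L → ZMod n),
  (∀ m : ZMod n, m ≠ 0 →
    ∃ T : Finset (ZMod n), 2 * kd + 1 ≤ T.card ∧ ∀ h ∈ T, InSG F h ∨ InSG F (-m - h)) →
  ∀ lam : ZMod n → Fin kd → ℝ, (∀ j, ∑ v, lam v j = 0) →
  (∀ (l : Fin L) (v : ZMod n), ∑ j : Fin kd,
    ((lam v j : ℂ) * (1 - ZMod.stdAddChar (F l * ((j.val + 1 : ℕ) : ZMod n)))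
      + (lam (v - ((j.val + 1 : ℕ) : ZMod n)) j : ℂ) *
        (1 - ZMod.stdAddChar (-(F l * ((j.val + 1 : ℕ) : ZMod n))))) = 0) → lam = 0

/-- `g` is the frequency of the extra coordinate. -/
def S_SPANG : Prop := ∀ (n L : ℕ) [NeZero n] (F : Fin L → ZMod n) (g : ZMod n), Function.Injective F →
  (∀ l, F l ≠ 0) → (∀ l l', F l ≠ - F l') → g ≠ 0 → (∀ l, F l ≠ g) → (∀ l, F l ≠ -g) →
  ∃ δ : ℝ, 0 < δ ∧
  ∀ X : ZMod n → Fin L → ℂ, (∀ i l, ‖X i l - ZMod.stdAddChar (F l * i)‖ < δ) →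
  ∀ ε : ℝ, ε ≠ 0 → ∀ (w : Fin L → ℂ) (t b : ℝ),
    (∀ i, (∑ l, (starRingEnd ℂ (w l) * X i l)).re +
      t * (ε * (ZMod.stdAddChar (g * i) : ℂ).re) = b) → w = 0 ∧ t = 0

end Pool.Agent.X51.KE
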